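import Pool.Agent.helper62.DP8.Spec

set_option autoImplicit false

namespace Pool.Agent.helper62.DP8

open Classical in
theorem LST (hDGE : DGE_stmt) : LST_stmt := by
  intro V _ H T s v hv hs hP W R L hW hC hL
  have h1 : Good R (T.erase v) L := by
    apply hP W R L hW hC
    intro u hu
    have huT : u ∈ T := (Finset.mem_erase.mp hu).2
    have h2 := hDGE V H T u v
    have h3 := hL u huT
    show dg H (T.erase v) u + (if H.Adj v u then s u + 1 else s u) ≤ (L u).card + 1
    by_cases h : H.Adj v u
    · rw [if_pos h]
      have := h2.1 h.symm hv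
      omega
    · rw [if_neg h]
      have := h2.2 (fun h' => h h'.symm)
      omega
  obtain ⟨f, hf1, hf2⟩ := h1
  have hB : ((T.filter (fun u => H.Adj v u)).biUnion (fun u => (L v).filter (fun x => R (f u) x))).card ≤ dg H T v := by
    calc ((T.filter (fun u => H.Adj v u)).biUnion (fun u => (L v).filter (fun x => R (f u) x))).card
        ≤ ∑ u ∈ T.filter (fun u => H.Adj v u), ((L v).filter (fun x => R (f u) x)).card := Finset.card_biUnion_le
      _ ≤ ∑ u ∈ T.filter (fun u => H.Adj v u), 1 := by
          apply Finset.sum_le_sum
          intro u hu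
          have hu1 := (Finset.mem_filter.mp hu).1
          have hu2 := (Finset.mem_filter.mp hu).2
          have huv : u ≠ v := by
            intro h
            subst h
            exact H.loopless.irrefl u hu2
          rw [Finset.card_le_one]
          intro a ha b hb
          have ha1 := Finset.mem_filter.mp ha
          have hb1 := Finset.mem_filter.mp hb
          exact hC.mat u v huv (f u) (hf1 u (Finset.mem_erase.mpr ⟨huv, hu1⟩)) a ha1.1 b hb1.1 ha1.2 hb1.2
      _ = dg H T v := by
          rw [Finset.sum_const, smul_eq_mul, mul_one]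
          rfl
  have hlt : ((T.filter (fun u => H.Adj v u)).biUnion (fun u => (L v).filter (fun x => R (f u) x))).card < (L v).card := by
    have := hL v hv
    omega
  obtain ⟨x, hx1, hx2⟩ := Finset.exists_mem_notMem_of_card_lt_card hlt
  have hx3 : ∀ u ∈ T, u ≠ v → ¬ R (f u) x := by
    intro u hu huv hR
    by_cases h : H.Adj v u
    · apply hx2
      rw [Finset.mem_biUnion]
      exact ⟨u, Finset.mem_filter.mpr ⟨hu, h⟩, Finset.mem_filter.mpr ⟨hx1, hR⟩⟩
    · exact hC.non u v huv (fun h' => h h'.symm) (f u) (hf1 u (Finset.mem_erase.mpr ⟨huv, hu⟩)) x hx1 hR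
  refine ⟨Function.update f v x, ?_, ?_⟩
  · intro u hu
    by_cases h : u = v
    · subst h
      rw [Function.update_self]
      exact hx1
    · rw [Function.update_of_ne h]
      exact hf1 u (Finset.mem_erase.mpr ⟨h, hu⟩)
  · intro a ha b hb hab
    by_cases h : a = v
    · subst h
      rw [Function.update_self, Function.update_of_ne hab.symm]
      exact fun hR => hx3 b hb hab.symm (hC.symm _ _ hR)
    · rw [Function.update_of_ne h]
      by_cases h' : b = v
      · subst h'
        rw [Function.update_self]
        exact hx3 a ha h
      · rw [Function.update_of_ne h']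
        exact hf2 a (Finset.mem_erase.mpr ⟨h, ha⟩) b (Finset.mem_erase.mpr ⟨h', hb⟩) hab

end Pool.Agent.helper62.DP8
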